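import Pool.Agent.HD.Core
import Pool.Agent.HD.Params
import Pool.Agent.HD.Literal
import Pool.Agent.HDT.CoreMain
import Pool.Agent.HDT.Params
import Pool.Agent.HDS.Main

/-!
# MP_134267_co, Q1 in full: spanning nearly balanced clique subdivisions in spectral expanders

There are constants `C > 0` and `0 < c < 1` such that every `(n, d, lam)`-graph with `d ≥ C * lam`
contains a spanning nearly balanced `K_t`-subdivision for all
`2 ≤ t ≤ min (c * d) (c * √(n / log n))`.

Three ranges: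
* `d ≥ C₁ (log n)^4` and `t ≤ c₁ √(n / (log n)^3)`: Theorem HD (`Pool.Agent.HD`, chair helper33);
* `c₁ √(n / (log n)^3) ≤ t ≤ c₂ √(n / log n)`: Theorem HDT (`Pool.Agent.HDT`, chair helper88);
* `d ≤ C₁ (log n)^4`: Theorem HDS (`Pool.Agent.HDS`, chair helper25; path covers
  `Pool.Agent.Bulk`).
-/

set_option autoImplicit false

namespace Pool.Agent.Results.MP_134267_co.FullAnswer

open Pool.Agent.HD

/-- the number of vertices is large when `2 ≤ t ≤ c * √(n / log n)` and `c` is small -/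
theorem large_of_le {C c : ℝ} {n t : ℕ} (hC : 0 < C) (hc0 : 0 < c) (hc : c ≤ 1 / (C + 1))
    (ht : 2 ≤ t) (h : (t : ℝ) ≤ c * √((n : ℝ) / Real.log n)) : C ≤ n := by
  have ht' : (2 : ℝ) ≤ t := by exact_mod_cast ht
  have hn2 : 2 ≤ n := by
    by_contra hcon
    have h1 : n = 0 ∨ n = 1 := by omega
    rcases h1 with h1 | h1
    · subst h1
      simp only [Nat.cast_zero, zero_div, Real.sqrt_zero, mul_zero] at h
      linarith
    · subst h1
      simp only [Nat.cast_one, Real.log_one, div_zero, Real.sqrt_zero, mul_zero] at h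
      linarith
  have hn0 : (0 : ℝ) < n := by
    have : (2 : ℝ) ≤ n := by exact_mod_cast hn2
    linarith
  have hlog : (1 : ℝ) / 2 ≤ Real.log n := by
    have h1 : Real.log 2 ≤ Real.log n := Real.log_le_log (by norm_num) (by exact_mod_cast hn2)
    have h2 := Real.log_two_gt_d9
    linarith
  have h1 : (n : ℝ) / Real.log n ≤ 2 * n := by
    rw [div_le_iff₀ (by linarith)]
    nlinarith
  have h2 : (t : ℝ) ^ 2 ≤ c ^ 2 * (2 * n) := by
    have h3 : (t : ℝ) ^ 2 ≤ (c * √((n : ℝ) / Real.log n)) ^ 2 :=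
      pow_le_pow_left₀ (by linarith) h 2
    rw [mul_pow, Real.sq_sqrt (by positivity)] at h3
    exact h3.trans (mul_le_mul_of_nonneg_left h1 (sq_nonneg c))
  have h3 : (4 : ℝ) ≤ (t : ℝ) ^ 2 := by nlinarith
  have h4 : c * (C + 1) ≤ 1 := by
    rwa [le_div_iff₀ (by linarith)] at hc
  have h5 : c ^ 2 * (C + 1) ^ 2 ≤ 1 := by
    have : (c * (C + 1)) ^ 2 ≤ 1 := pow_le_one₀ (by positivity) h4
    rwa [mul_pow] at this
  have h6 : 4 * (C + 1) ^ 2 ≤ 2 * n := by
    calc 4 * (C + 1) ^ 2 ≤ (c ^ 2 * (2 * n)) * (C + 1) ^ 2 :=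
          mul_le_mul_of_nonneg_right (h3.trans h2) (sq_nonneg _)
      _ = (c ^ 2 * (C + 1) ^ 2) * (2 * n) := by ring
      _ ≤ 1 * (2 * n) := mul_le_mul_of_nonneg_right h5 (by linarith)
      _ = 2 * n := one_mul _
  nlinarith

/-- **Q1 in full**: constants `C > 0` and `0 < c < 1` such that every `(n, d, lam)`-graph with
`d ≥ C * lam` has a spanning nearly balanced subdivision of `K_t` for every `t` with
`2 ≤ t ≤ min (c * d) (c * √(n / log n))`. -/
theorem result : ∃ C c : ℝ, 0 < C ∧ 0 < c ∧ c < 1 ∧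
    ∀ (V : Type) [Fintype V] [DecidableEq V] (G : SimpleGraph V) [DecidableRel G.Adj]
      (d : ℕ) (lam : ℝ), G.IsRegularOfDegree d →
      (∀ mu ∈ (G.adjMatrix ℝ).charpoly.roots.erase (d : ℝ), |mu| ≤ lam) →
      C * lam ≤ d →
      ∀ t : ℕ, 2 ≤ t → (t : ℝ) ≤ c * d →
        (t : ℝ) ≤ c * √((Fintype.card V : ℝ) / Real.log (Fintype.card V)) →
        HasSubdivision G t := by
  obtain ⟨C₁, c₁, hC₁, hc₁0, hc₁1, H₁⟩ := Pool.Agent.HD.parameters
  obtain ⟨C₂, c₂, hC₂, hc₂0, hc₂1, H₂⟩ := Pool.Agent.HDT.parametersT c₁ hc₁0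
  obtain ⟨C₃, c₃, hC₃, hc₃0, H₃⟩ := Pool.Agent.HDS.low_degree C₁
  have hC1 : (0 : ℝ) < 1 / (C₂ + 1) := by positivity
  refine ⟨max (max C₁ C₂) C₃, min (min (min c₁ c₂) c₃) (1 / (C₂ + 1)),
    lt_max_of_lt_left (lt_max_of_lt_left hC₁), lt_min (lt_min (lt_min hc₁0 hc₂0) hc₃0) hC1,
    (min_le_left _ _).trans_lt ((min_le_left _ _).trans_lt ((min_le_left _ _).trans_lt hc₁1)), ?_⟩
  intro V _ _ G _ d lam hreg hspec hlam t ht htd htn
  set c : ℝ := min (min (min c₁ c₂) c₃) (1 / (C₂ + 1)) with hc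
  have hc0 : 0 < c := lt_min (lt_min (lt_min hc₁0 hc₂0) hc₃0) hC1
  have hcc₁ : c ≤ c₁ := (min_le_left _ _).trans ((min_le_left _ _).trans (min_le_left _ _))
  have hcc₂ : c ≤ c₂ := (min_le_left _ _).trans ((min_le_left _ _).trans (min_le_right _ _))
  have hcc₃ : c ≤ c₃ := (min_le_left _ _).trans (min_le_right _ _)
  have hcc₄ : c ≤ 1 / (C₂ + 1) := min_le_right _ _
  have hd0 : (0 : ℝ) ≤ d := Nat.cast_nonneg d
  -- replace `lam` by `max lam 0`
  have hN : IsNDL G d (max lam 0) :=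
    IsNDL.of_literal G hreg fun mu hmu => (hspec mu hmu).trans (le_max_left _ _)
  have h0 : (0 : ℝ) ≤ max lam 0 := le_max_right _ _
  have h1 : max (max C₁ C₂) C₃ * max lam 0 ≤ d := by
    rcases le_total lam 0 with h | h
    · rw [max_eq_right h, mul_zero]
      exact hd0
    · rw [max_eq_left h]
      exact hlam
  have h1a : C₁ * max lam 0 ≤ d :=
    (mul_le_mul_of_nonneg_right ((le_max_left _ _).trans (le_max_left _ _)) h0).trans h1
  have h1b : C₂ * max lam 0 ≤ d :=
    (mul_le_mul_of_nonneg_right ((le_max_right _ _).trans (le_max_left _ _)) h0).trans h1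
  have h1c : C₃ * max lam 0 ≤ d := (mul_le_mul_of_nonneg_right (le_max_right _ _) h0).trans h1
  -- the number of vertices is large
  have hn : C₂ ≤ (Fintype.card V : ℝ) := large_of_le hC₂ hc0 hcc₄ ht htn
  -- the degree is at most the number of vertices
  have hdn : d ≤ Fintype.card V := by
    by_contra hcon
    push Not at hcon
    have hemp : IsEmpty V := by
      rw [← not_nonempty_iff]
      rintro ⟨v⟩
      have h2 := hN.reg v
      have h3 := Finset.card_le_univ (G.neighborFinset v)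
      omega
    have hcard : Fintype.card V = 0 := Fintype.card_eq_zero
    rw [hcard, Nat.cast_zero] at hn
    linarith
  rcases le_total (C₁ * (Real.log (Fintype.card V)) ^ 4) (d : ℝ) with hlog | hlog
  · -- large degree
    rcases le_total (t : ℝ) (c₁ * √((Fintype.card V : ℝ) / (Real.log (Fintype.card V)) ^ 3))
      with hcase | hcase
    · obtain ⟨κn, m, hh, κ, Q, K, l, g, qf, hp⟩ :=
        H₁ (Fintype.card V) d t (max lam 0) h0 h1a hlog hdn ht
          (htd.trans (mul_le_mul_of_nonneg_right hcc₁ hd0)) hcase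
      exact core G hN h0 t κn m hh κ Q K l g qf hp
    · obtain ⟨h, κ, B, K, Q, N, μ, u, hp⟩ :=
        H₂ (Fintype.card V) d t (max lam 0) h0 hn h1b hdn ht
          (htd.trans (mul_le_mul_of_nonneg_right hcc₂ hd0))
          (htn.trans (mul_le_mul_of_nonneg_right hcc₂ (Real.sqrt_nonneg _))) hcase
      exact Pool.Agent.HDT.coreT G hN h0 hp
  · -- small degree
    exact H₃ V G d (max lam 0) hN h0 h1c hlog t ht
      (htd.trans (mul_le_mul_of_nonneg_right hcc₃ hd0))

end Pool.Agent.Results.MP_134267_co.FullAnswer
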